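import Pool.Agent.H41.AL.Defs2

set_option autoImplicit false

/-!
# Resolving the conflicts inside one class of the partition
-/

namespace Pool.Agent.H215.AG

open Equiv Pool.Agent.H41.AL

theorem inv_self {n : ℕ} (e : Perm (Fin n)) (x : Fin n) : e⁻¹ (e x) = x := e.symm_apply_apply x

theorem cls (hf : S_FIX) : S_CLASS := by
  classical
  intro V _ _ G _ n m β d U σ B P hσ hd hB hm hST hrow hcol
  have key : ∀ U' : Finset V, U' ⊆ U → ∃ cur : V → Perm (Fin n),
      (∀ v ∈ U, ∀ j, B v j (cur v j)) ∧
      (∀ v ∈ U', ∀ u ∈ U, G.Adj u v → ∀ j, cur v j ≠ σ u v (cur u j)) ∧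
      (∀ v ∈ U', {j | cur v j ≠ P v j}.ncard ≤ 3 * m) ∧
      (∀ v, v ∉ U' → cur v = P v) ∧
      ∀ u ∈ U, ∀ v ∈ U, G.Adj u v → ∀ j, cur v j = σ u v (cur u j) → P v j = σ u v (P u j) := by
    intro U'
    induction U' using Finset.induction_on with
    | empty =>
      intro _
      refine ⟨P, hB, ?_, ?_, fun _ _ => rfl, fun _ _ _ _ _ _ h => h⟩
      · intro v hv
        exact absurd hv (Finset.notMem_empty v)
      · intro v hv
        exact absurd hv (Finset.notMem_empty v)
    | insert v U' hv ih =>
      intro hsub
      have hvU : v ∈ U := hsub (Finset.mem_insert_self v U')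
      obtain ⟨cur, ha, hb, hc, hc', hd'⟩ := ih fun w hw => hsub (Finset.mem_insert_of_mem hw)
      have hcv : cur v = P v := hc' v hv
      set N := U.filter fun u => G.Adj v u with hN
      have hNd : N.card ≤ d := hd v
      have memN : ∀ u, u ∈ U → G.Adj u v → u ∈ N := fun u hu h =>
        Finset.mem_filter.2 ⟨hu, h.symm⟩
      let B' : Fin n → Fin n → Prop := fun j c => B v j c ∧
        ∀ u ∈ U, G.Adj u v → c ≠ σ u v (cur u j)
      have hB' : ∀ j c, B v j c → ¬ B' j c → ∃ u ∈ N, c = σ u v (cur u j) := by
        intro j c h1 h2
        by_contra h3
        push Not at h3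
        exact h2 ⟨h1, fun u hu hadj => h3 u (memN u hu hadj)⟩
      obtain ⟨Q, hQ1, hQ2⟩ := hf n m β B' (P v) (Finset.univ.filter fun j => ¬ B' j (P v j))
        (by
          refine le_trans ?_ (hm v hvU)
          rw [← Set.ncard_coe_finset]
          refine Set.ncard_le_ncard ?_ (Set.toFinite _)
          intro j hj
          have hj' : ¬ B' j (P v j) := (Finset.mem_filter.1 (Finset.mem_coe.1 hj)).2
          obtain ⟨u, hu, he⟩ := hB' j (P v j) (hB v hvU j) hj'
          obtain ⟨hu1, hu2⟩ := Finset.mem_filter.1 hu
          have h1 := hd' u hu1 v hvU hu2.symm j (by rw [hcv]; exact he)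
          refine ⟨u, hu1, hu2, ?_⟩
          rw [hσ u v hu2.symm, h1, inv_self])
        (by
          intro j hj
          by_contra h
          exact hj (Finset.mem_filter.2 ⟨Finset.mem_univ _, h⟩))
        (by
          intro S T hS hT
          by_contra hcon
          push Not at hcon
          have h1 := hST v hvU S T hS hT
          have h2 : {p : Fin n × Fin n | p.1 ∈ S ∧ p.2 ∈ T ∧ B v p.1 p.2} ⊆
              (((S ×ˢ N).image fun p : Fin n × V => (p.1, σ p.2 v (cur p.2 p.1)) :
                Finset (Fin n × Fin n)) : Set (Fin n × Fin n)) := by
            rintro ⟨j, c⟩ ⟨h3, h4, h5⟩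
            obtain ⟨u, hu, he⟩ := hB' j c h5 (hcon j h3 c h4)
            refine Finset.mem_coe.2 (Finset.mem_image.2 ⟨(j, u),
              Finset.mem_product.2 ⟨h3, hu⟩, ?_⟩)
            show (j, σ u v (cur u j)) = (j, c)
            rw [he]
          have h3 := Set.ncard_le_ncard h2 (Set.toFinite _)
          rw [Set.ncard_coe_finset] at h3
          have h4 : ((S ×ˢ N).image fun p : Fin n × V => (p.1, σ p.2 v (cur p.2 p.1))).card ≤
              S.card * N.card := by
            rw [← Finset.card_product]
            exact Finset.card_image_le
          have h5 : S.card * N.card ≤ d * S.card := by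
            rw [mul_comm]
            exact Nat.mul_le_mul_right _ hNd
          omega)
        (by
          intro j
          have h1 := hrow v hvU j
          have h2 : {c | B v j c} ⊆ {c | B' j c} ∪
              ((N.image fun u => σ u v (cur u j) : Finset (Fin n)) : Set (Fin n)) := by
            intro c hc1
            by_cases h : B' j c
            · exact Or.inl h
            · obtain ⟨u, hu, he⟩ := hB' j c hc1 h
              exact Or.inr (Finset.mem_coe.2 (Finset.mem_image.2 ⟨u, hu, he.symm⟩))
          have h3 := (Set.ncard_le_ncard h2 (Set.toFinite _)).trans (Set.ncard_union_le _ _)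
          rw [Set.ncard_coe_finset] at h3
          have h4 : (N.image fun u => σ u v (cur u j)).card ≤ N.card := Finset.card_image_le
          omega)
        (by
          intro c
          have h1 := hcol v hvU c
          have h2 : {j | B v j c} ⊆ {j | B' j c} ∪
              ((N.image fun u => (cur u)⁻¹ ((σ u v)⁻¹ c) : Finset (Fin n)) : Set (Fin n)) := by
            intro j hc1
            by_cases h : B' j c
            · exact Or.inl h
            · obtain ⟨u, hu, he⟩ := hB' j c hc1 h
              refine Or.inr (Finset.mem_coe.2 (Finset.mem_image.2 ⟨u, hu, ?_⟩))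
              rw [he, inv_self, inv_self]
          have h3 := (Set.ncard_le_ncard h2 (Set.toFinite _)).trans (Set.ncard_union_le _ _)
          rw [Set.ncard_coe_finset] at h3
          have h4 : (N.image fun u => (cur u)⁻¹ ((σ u v)⁻¹ c)).card ≤ N.card :=
            Finset.card_image_le
          omega)
      -- the new assignment has no conflict at `v`
      have hno : ∀ u ∈ U, G.Adj u v → ∀ j, Q j ≠ σ u v (cur u j) := fun u hu hadj j =>
        (hQ1 j).2 u hu hadj
      have hno' : ∀ w ∈ U, G.Adj v w → ∀ j, cur w j ≠ σ v w (Q j) := by
        intro w hw hadj j he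
        apply hno w hw hadj.symm j
        rw [he, hσ v w hadj, inv_self]
      refine ⟨Function.update cur v Q, ?_, ?_, ?_, ?_, ?_⟩
      · intro w hw j
        by_cases h : w = v
        · subst h
          rw [Function.update_self]
          exact (hQ1 j).1
        · rw [Function.update_of_ne h]
          exact ha w hw j
      · intro w hw u hu hadj j
        by_cases h : w = v
        · subst h
          rw [Function.update_self, Function.update_of_ne hadj.ne]
          exact hno u hu hadj j
        · rw [Function.update_of_ne h]
          have hw' : w ∈ U' := (Finset.mem_insert.1 hw).resolve_left h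
          by_cases h' : u = v
          · subst h'
            rw [Function.update_self]
            exact hno' w (hsub hw) hadj j
          · rw [Function.update_of_ne h']
            exact hb w hw' u hu hadj j
      · intro w hw
        by_cases h : w = v
        · subst h
          rw [Function.update_self]
          exact hQ2
        · rw [Function.update_of_ne h]
          exact hc w ((Finset.mem_insert.1 hw).resolve_left h)
      · intro w hw
        have h : w ≠ v := fun h => hw (h ▸ Finset.mem_insert_self v U')
        rw [Function.update_of_ne h]
        exact hc' w fun h' => hw (Finset.mem_insert_of_mem h')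
      · intro u hu w hw hadj j he
        by_cases h : w = v
        · subst h
          rw [Function.update_self, Function.update_of_ne hadj.ne] at he
          exact absurd he (hno u hu hadj j)
        · rw [Function.update_of_ne h] at he
          by_cases h' : u = v
          · subst h'
            rw [Function.update_self] at he
            exact absurd he (hno' w hw hadj j)
          · rw [Function.update_of_ne h'] at he
            exact hd' u hu w hw hadj j he
  obtain ⟨cur, ha, hb, hc, -, -⟩ := key U (Finset.Subset.refl U)
  exact ⟨cur, ha, fun u hu v hv hadj j => hb v hv u hu hadj j, hc⟩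

end Pool.Agent.H215.AG
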